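import Pool.Agent.MWS.StmtsA

/-! Row TLM of squad MWS. -/

namespace Pool.Agent.MWS.H3

open Pool.Agent.MWS

theorem tlm (gld : GldStmt) (dgn : DgnStmt) (blk : BlkStmt) (tlp : TlpStmt) (d2f : D2fStmt)
    (mjo : MjoStmt) (mje : MjeStmt) : TlmStmt := by
  intro β hb hi hs he
  have hd2 : D2 β := d2f β hb hi hs
  have hmjs : MJS β := mje β hb.toApI he
  have hmj2 : MJ2 β := mjo β hb hi hmjs
  have hmjb : MJB β := tlp β hd2 hmj2
  have hmjn : MJN β := blk β hb.toApI hmjb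
  exact gld β (dgn β hb.toApI hmjn)

end Pool.Agent.MWS.H3
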